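import Pool.Agent.T9h39.AJDim

/-!
# The injectivity of the Abel-Jacobi maps is a statement about cycles just below the middle dimension

Let `Q(m)` be the following case of Q1: *for every smooth projective variety `X` over `ℚ̄` of dimension
`2m` the Abel-Jacobi map of the cycles of codimension `m + 1` on `X` is injective* (the case `m = 1` is
the one of zero-cycles on surfaces, `m = 2` the one of `1`-cycles on fourfolds).

**Theorem.** (1) `Q(m)` holds if and only if the Abel-Jacobi maps are injective for all cycles of dimension
less than `m` on all smooth projective varieties of all dimensions. (2) Q1 holds for all smooth
projective varieties and all `k` if and only if `Q(m)` holds for arbitrarily large `m`.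

In particular `Q(m + 1)` implies `Q(m)`; a counterexample to Q1 on a projective variety of dimension `n`
in codimension `k` gives one on a variety of dimension `2m` in codimension `m + 1`, for every
`m > n - k`. It is enough to treat `k = dim X / 2 + 1`. For `m = 1` the statement says that zero-cycles on
surfaces control zero-cycles on all varieties; `1`-cycles on fourfolds control the cycles of codimension
two on threefolds and all `1`-cycles. For the open varieties in the problem see also the hand-in
OpenFromCompactification: for zero-cycles the statement for all smooth quasi-projective varieties is
equivalent to `Q(1)`.

The structure `Theory` contains the data: the varieties with their dimensions, and for a variety and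
`k` the structure `Cyc` (the Chow group with rational coefficients, the class map to `N = H^(2k)(k)` and
the Abel-Jacobi map of its kernel to the group `M_ℂ / (F⁰ + M_ℚ)` of the extensions of `ℚ(0)` by
`M = H^(2k-1)(k)`), the push-forward for a smooth ample divisor, the pull-back for `X × ℙ¹ → X` and the
push-forward for a section of it. The hypotheses are known theorems:

* `IsElementary`: dimensions, cycles of negative dimension, injectivity of the maps from `X` to
  `X × ℙ¹` (they have left inverses);
* `IsLefschetz`: the Gysin maps `H^i(Y) → H^(i+2)(X)(1)` are isomorphisms for `i > dim Y`;
* `Moving`: a cycle of dimension `d` on `X` with `2d + 2 < dim X` is rationally equivalent (with rational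
  coefficients) to a cycle on a smooth ample divisor. Indeed by Kleiman (Geometry on Grassmannians
  and applications to splitting bundles and smoothing cycles) it is equivalent to a combination
  of smooth subvarieties, which by general position can be taken disjoint, and the
  general hypersurface section of large degree which contains a smooth closed subscheme of dimension
  `d`, `2d < dim X`, is smooth.

`Var` can also be another class of smooth projective varieties with these properties, and other base
fields are possible.

The proof: `(X, k)` is embedded in `(X × ℙ¹, k)` and `(X × ℙ¹, k + 1)`, which raises the dimension of the
cycles, or only the one of the variety. Above the critical dimension the Abel-Jacobi class of a cycle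
in `Y` is determined by the one of its image in `X`, since the Gysin map is an isomorphism of Hodge
structures; so one can descend to `Y`, until the dimension is `2m`.
-/

namespace Pool.Agent.Results.MP_537ea0_ag.CriticalDimensions

open Pool.Agent.T9h39.AJ

/-- **Reduction to the critical dimensions.** -/
theorem result (T : Theory) (hE : T.IsElementary) (hL : T.IsLefschetz) (hM : T.Moving) :
    (∀ m, T.Critical m ↔ T.Small m) ∧
      ((∀ (X : T.Var) (k : ℕ), (T.cyc X k).Injective) ↔ ∀ M, ∃ m ≥ M, T.Critical m) := by
  have h1 : ∀ m, T.Critical m ↔ T.Small m := fun m =>
    ⟨small_of_critical hE hL hM, fun h X hX => h X (m + 1) (by omega)⟩
  refine ⟨h1, fun h M => ⟨M, le_rfl, fun X _ => h X _⟩, fun h X k => ?_⟩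
  obtain ⟨m, hm, hC⟩ := h (T.dim X + 1)
  exact (h1 m).1 hC X k (by omega)

end Pool.Agent.Results.MP_537ea0_ag.CriticalDimensions
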