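import Pool.Agent.T9h39.AJLoc

/-!
# The localization sequence for the kernels of the Abel-Jacobi maps

Let `X` be a smooth projective variety over `ℚ̄`, `Z ⊂ X` a smooth closed subvariety of codimension `c`,
`V = X - Z` the open complement. Let `A`, `B`, `D` be the groups `CH^k(X)`, `CH^k(V)`, `CH^(k-c)(Z)` with
rational coefficients, together with the cycle class maps to `N = H^(2k)(k)`, respectively
`H^(2k-2c)(Z)(k-c)`, and the Abel-Jacobi maps on the homologically trivial cycles, with values in the
group `M_ℂ / (F⁰ + M_ℚ)` of the extensions of `ℚ(0)` by the (mixed) Hodge structure `M = H^(2k-1)(k)`,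
respectively `H^(2k-2c-1)(Z)(k-c)` (Carlson's description; for `V` one takes `W_0 H^(2k-1)(V)(k)`, which has the
same extensions). Let `i` be the push-forward and `j` the restriction.

**Theorem.** Suppose that there is an algebraic correspondence `t` from `X` to `Z` which is a left
inverse in cohomology of the Gysin maps `H^(2k-2c)(Z)(k-c) → H^(2k)(X)(k)` and
`H^(2k-2c-1)(Z)(k-c) → H^(2k-1)(X)(k)`. Then the sequence of the kernels of the Abel-Jacobi maps

  `ker Φ_Z → ker Φ_X → ker Φ_V → 0`

is exact: `ker Φ_V` is the restriction of `ker Φ_X`, and the elements of `ker Φ_X` with
restriction zero to `V` are the push-forwards of the elements of `ker Φ_Z`. In particular, injectivity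
of the Abel-Jacobi map of `X` implies injectivity for `V`, and injectivity for `Z` and `V` implies
injectivity for `X`.

The formal properties used (`IsLocalization`: the localization sequences for the Chow groups and for
the cohomology; `IsQuotient`: the restriction `H^(2k-1)(X)(k) → W_0 H^(2k-1)(V)(k)` is surjective, as the
residues vanish because the next Gysin map is injective, and strict for the Hodge filtration) are well
known. The correspondence `t` exists in the following cases.

* `X` satisfies the Lefschetz standard conjecture (for example: `X` is a product of abelian varieties,
  curves, surfaces, varieties with a cell decomposition, complete intersections; a threefold not of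
  general type; a Hilbert scheme of points of a K3 surface), `Z` is a smooth complete intersection of
  `c` divisors which are multiples of the same ample divisor, and `dim X ≠ 2k - c`, `dim X ≠ 2k - c - 1`.
  Let `L` be the Lefschetz operator, `λ` an
  algebraic correspondence with `L^c λ L^c = L^c` on the cohomology of `X`. Then a multiple of
  `t = i^* λ` has the property: for `m < dim Z` the group `H^m(Z)` is the restriction of `H^m(X)`, and `λ`
  is a left inverse of the injective operator `L^c : H^m(X) → H^(m+2c)(X)`; for `m > dim Z` the Gysin map
  `H^m(Z) → H^(m+2c)(X)(c)` is an isomorphism and `L^c : H^m(X) → H^(m+2c)(X)` is surjective. The two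
  excluded dimensions are those where the cohomology in the middle dimension of `Z`, with
  its vanishing classes, is involved. So for instance **for all `k`, for all abelian varieties `X` of
  dimension different from `2k - 1`, `2k - 2` and all smooth ample divisors `Z` the sequence of
  kernels is exact**, without any hypothesis; no case of the Hodge conjecture is used, and `Z` need
  not satisfy the Lefschetz standard conjecture.
* `Z` is a retract of `X` up to a finite map, for example an abelian subvariety of an abelian variety, or
  a section of a fibration.

The proof corrects a lift to `X` of a cycle in the kernel for `V` twice by `i t`: the first correction makes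
it homologically trivial, the second one removes the Abel-Jacobi class.
-/

namespace Pool.Agent.Results.MP_537ea0_ag.LocalizationForKernels

open Pool.Agent.T9h39.AJ

/-- **The localization sequence for the kernels of the Abel-Jacobi maps.** -/
theorem result {D A B : Cyc} (i : CMor D A) (j : CMor A B) (hloc : IsLocalization i j)
    (hquot : j.m.IsQuotient) (t : CMor A D) (ht : IsRetraction i t) :
    (B.kernel = A.kernel.map j.c ∧ A.kernel ⊓ LinearMap.ker j.c = D.kernel.map i.c) ∧
      (A.Injective → B.Injective) ∧ (D.Injective → B.Injective → A.Injective) := by
  have h1 := kernel_surj hloc ht hquot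
  have h2 := kernel_exact hloc ht
  refine ⟨⟨h1, h2⟩, fun hA => ?_, fun hD hB => ?_⟩
  · rw [injective_iff] at hA ⊢
    rw [h1, hA, Submodule.map_bot]
  · rw [injective_iff] at hD hB ⊢
    rw [hD, Submodule.map_bot] at h2
    rw [hB] at h1
    rw [eq_bot_iff, ← h2]
    intro z hz
    refine ⟨hz, ?_⟩
    have h3 : j.c z ∈ A.kernel.map j.c := ⟨z, hz, rfl⟩
    rw [← h1] at h3
    exact h3

end Pool.Agent.Results.MP_537ea0_ag.LocalizationForKernels
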