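import Pool.Agent.T9h39.AJMain

/-!
# The kernel of the Abel-Jacobi map of an open variety is the restriction of the kernel for a
# compactification: codimension at most two, and zero-cycles

Let `X` be a smooth projective variety over an algebraically closed field `k ⊂ ℂ` (for example
`k = ℚ̄`), `V ⊂ X` an open subvariety, `Z` the complement (any closed subset), `D` the disjoint union
of resolutions of the irreducible components of `Z`. For a natural number `k` let `A`, `B` be the Chow
groups `CH^k(X)`, `CH^k(V)` with rational coefficients, together with the cycle class maps to
`H^(2k)(k)` and the Abel-Jacobi maps `Φ` on the homologically trivial cycles, with values in the group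
`M_ℂ / (F⁰ + M_ℚ)` of the extensions of `ℚ(0)` by the mixed Hodge structure `M = H^(2k-1)(k)` (Carlson's
description; for `V` one takes `M = W_0 H^(2k-1)(V)(k)`, which has the same extensions). Similarly
`D` stands for the sum of the groups `CH^(k-c)(D_c)`, `c` the codimension of the component, with
`N = ⊕ H^(2k-2c)(D_c)(k-c)` and `M = ⊕ H^(2k-2c-1)(D_c)(k-c)`. The maps are the push-forward `i` and the
restriction `j`. The structures `IsLocalization`, `Residue` list the (known) formal properties:

* the localization sequences: `D → A → B → 0` is exact for cycles; the kernel of `H^(2k)(X) → H^(2k)(V)`
  is the image of `N_D` and the kernel of `H^(2k-1)(X) → H^(2k-1)(V)` is the image of `M_D` (weights);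
* `H^(2k-1)(X)(k) → W_0 H^(2k-1)(V)(k) → R` is exact, where `R = W_0 H^(2k)_Z(X)(k)`, a quotient of `N_D`;
  Hodge classes lift along the maps of polarizable Hodge structures `N_D → R` (with push-forward zero to
  `X`, if the class in `R` has this property) and `N_D → H^(2k)(X)(k)`;
* cycle class maps and Abel-Jacobi maps commute with `i` and `j`, and the Abel-Jacobi class of a cycle
  with support in `Z` which is homologically trivial on `X` is given by the boundary map for the residue.

**Theorem.** Suppose that the Hodge conjecture holds for the classes in `N_D` (codimension `k - c` on
`D_c`, `c ≥ 1`), and that the adjoint, for polarizations, of the push-forward from `M_D` to `H^(2k-1)(X)(k)`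
is given by an algebraic correspondence. Then **the kernel of the Abel-Jacobi map of `V` is the
restriction to `V` of the kernel of the Abel-Jacobi map of `X`**. In particular the Abel-Jacobi map
`Φ_k` of `V` is injective if the one of `X` is injective.

Both conditions are satisfied, by known theorems, in the following cases, **for every closed subset
`Z`**, so that there the result is unconditional:

* `k ≤ 2`: the Hodge conjecture is needed in codimension at most one (Lefschetz). For `k = 2` the map is
  `H^1(D_1)(1) → H^3(X)(2)`. Let `L` be the class of an ample divisor and `n = dim X`. For the polarization
  `(a, b) ↦ ∫ L^(n-3) a S b` of `H^3(X)`, where `S` is `1` on the primitive part and `-1` on `L H^1(X)`, and the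
  polarization of `H^1(D_1)` given by `L`, the adjoint is `Λ^(n-2) i^* L^(n-3) S`, where `Λ^(n-2)` is the
  inverse of `L^(n-2) : H^1(D_1) → H^(2n-3)(D_1)`; it is algebraic, and so is `S`, since the inverse of
  `L^(d-1) : H^1 → H^(2d-1)` is algebraic for varieties of dimension `d` (Lefschetz, Kleiman);
* `k = dim X` (zero-cycles): the Hodge conjecture is needed for points, and the map is the one between
  the Albanese varieties (Poincaré reducibility).

Consequences. (1) The statement of the problem for `k = 2` (and for zero-cycles) for all smooth
quasi-projective varieties is equivalent to the statement for all smooth projective varieties. (2)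
The statement holds for `k = 2` and **all open subvarieties `V` of all smooth projective varieties `X`
whose group `CH_0` is supported on a curve** (over an algebraically closed field of infinite
transcendence degree), for example if `X` is rationally connected, or a family of such varieties over
a curve: here `Φ_2` is injective for `X` by a theorem of Bloch and Srinivas. It holds for `k = 1` and all
smooth quasi-projective varieties. (3) It holds for `k = 2` if the kernel for `X` consists of classes
with support in `Z`.

The proof: a class `ξ` in the kernel for `V` is lifted to `X`; Hodge classes on `D`, which are algebraic,
correct the lift so that it is homologically trivial and so that its Abel-Jacobi class comes from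
`M_D`; a polynomial in the composition of `i` and its adjoint is a projector to the image of `M_D` (here the
positivity of the polarizations is used), and it removes this class.
-/

namespace Pool.Agent.Results.MP_537ea0_ag.OpenFromCompactification

open Pool.Agent.T9h39.AJ

/-- **The kernel of the Abel-Jacobi map of an open subvariety.** -/
theorem result {D A B : Cyc} (i : CMor D A) (j : CMor A B) (hloc : IsLocalization i j)
    (r : Residue D B) (hexact : IsExact j.m.f r.b.f) (hboundary : r.IsBoundary i j)
    (hlift : r.LiftsHodge i) (hlift' : LiftsHodge i.n)
    (hHodge : HodgeConj D) (hadjoint : HasAlgebraicAdjoint i) :
    B.kernel = A.kernel.map j.c ∧ (A.Injective → B.Injective) := by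
  have h := kernel_eq hloc hexact hboundary hlift hHodge hlift' hadjoint
  refine ⟨h, fun hA => ?_⟩
  rw [injective_iff] at hA ⊢
  rw [h, hA, Submodule.map_bot]

end Pool.Agent.Results.MP_537ea0_ag.OpenFromCompactification
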