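import Pool.Agent.Results.MP_9207e0_ag.OrthogonalSubgroups

/-!
# Injectivity of the Abel–Jacobi map on large groups of zero-cycles on products of elliptic curves

`F` is an algebraic closure of `ℚ`. Let `E_1, …, E_n` be elliptic curves over `F`, `E_i : y² = f_i(x)`
(every elliptic curve over `F` has such an equation), and let `A = E_1 × ⋯ × E_n`. The Abel–Jacobi map
of the zero-cycles of degree `0` on `A` is the sum `∑ m_k [x_k] ↦ ∑ m_k x_k ∈ A`. Q1 predicts that it is
injective on `CH^n_hom (A; ℚ)`.

**Theorem.** For every elliptic curve `E` over `F` there is a subgroup `W_E` of `E(F)` of infinite rank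
such that for all `n` and all elliptic curves `E_1, …, E_n` over `F` the Abel–Jacobi map is injective
modulo torsion on the zero-cycles supported on `W_{E_1} × ⋯ × W_{E_n}`: a positive multiple of every such
zero-cycle of degree `0` and sum `0` is rationally equivalent to zero, and lies in the group `Rat` of
explicit rational equivalences.

The cycles of `Rat` are the push-forwards of divisors of functions on two sorts of curves in `A`:
the curves `{point} × E_i` (functions with divisor `P + Q + R - 3 O`, `P + Q + R = 0` in `E_i`), and the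
images of the hyperelliptic curves over rational curves in the Kummer surface `w² = f_i(x) f_j(x')` of
`E_i × E_j`.
-/

set_option autoImplicit false

open WeierstrassCurve Polynomial

namespace Pool.Agent.Results.MP_537ea0_ag.ProductsOfEllipticCurves

open Pool.Agent.Results.MP_9207e0_ag.InfiniteRankFibres (OnSurface)

section definitions

variable {F : Type} [Field F] {n : ℕ}

/-- The points of the product of the curves `E i`. -/
abbrev Pts (E : Fin n → WeierstrassCurve F) : Type := ∀ i, (E i).toAffine.Point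

variable (E : Fin n → WeierstrassCurve F)

/-- The zero-cycle `[x]`. -/
noncomputable def cy (x : Pts E) : Pts E →₀ ℤ := Finsupp.single x 1

/-- The point `x` with the `i`-th coordinate replaced by `P`. -/
def put (x : Pts E) (i : Fin n) (P : (E i).toAffine.Point) : Pts E := Function.update x i P

/-- The push-forwards of the divisors `P + Q + R - 3 O` of the (linear) functions on the curves
`{x} × E i`. -/
def Lin [DecidableEq F] : Set (Pts E →₀ ℤ) :=
  {z | ∃ (x : Pts E) (i : Fin n) (P Q R : (E i).toAffine.Point), P + Q + R = 0 ∧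
    z = cy E (put E x i P) + cy E (put E x i Q) + cy E (put E x i R) - 3 • cy E (put E x i 0)}

/-- The point `(P, Q)` of `E × E'` lies over the point `(a, a', w)` of the Kummer surface. -/
def Over {E E' : WeierstrassCurve F} : E.toAffine.Point → E'.toAffine.Point → F → F → F → Prop
  | .some x y _, .some x' y' _, a, a', w => x = a ∧ x' = a' ∧ y * y' = w
  | _, _, _, _, _ => False

/-- Let `t ↦ (p(t) / d(t), p'(t) / d(t), q(t) / d(t))` be a rational curve in the surface
`w² = f_i(x) f_j(x')`, and let `H` be the curve over it in `E i × E j`. The cycles of this set are the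
push-forwards of the divisors of the functions `(T - t) / (T - u)` on `H`. -/
def Hyp : Set (Pts E →₀ ℤ) :=
  {z | ∃ (x : Pts E) (i j : Fin n) (P P' : (E i).toAffine.Point) (Q Q' : (E j).toAffine.Point)
    (p p' q d : F[X]) (t u : F), i ≠ j ∧
    (∀ s, d.eval s ≠ 0 →
      OnSurface (E i) (E j) (p.eval s / d.eval s, p'.eval s / d.eval s, q.eval s / d.eval s)) ∧
    d.eval t ≠ 0 ∧ d.eval u ≠ 0 ∧
    Over P Q (p.eval t / d.eval t) (p'.eval t / d.eval t) (q.eval t / d.eval t) ∧
    Over P' Q' (p.eval u / d.eval u) (p'.eval u / d.eval u) (q.eval u / d.eval u) ∧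
    z = cy E (put E (put E x i P) j Q) + cy E (put E (put E x i (-P)) j (-Q)) -
      cy E (put E (put E x i P') j Q') - cy E (put E (put E x i (-P')) j (-Q'))}

/-- A group of zero-cycles on the product which are rationally equivalent to zero. -/
noncomputable def Rat [DecidableEq F] : AddSubgroup (Pts E →₀ ℤ) :=
  AddSubgroup.closure (Lin E ∪ Hyp E)

end definitions

open Pool.Agent.H437R2.Man.MW Pool.Agent.T9h40.K3
open Pool.Agent.Results.MP_9207e0_ag.OrthogonalSubgroups
open Pool.Agent.Results.MP_9207e0_ag.InfiniteRankFibres (cubic cubic_crv)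

section quotient

variable {F : Type} [Field F] [DecidableEq F] {n : ℕ} (E : Fin n → WeierstrassCurve F)

/-- the cycles a multiple of which is in `Rat`. -/
def Sat : AddSubgroup (Pts E →₀ ℤ) where
  carrier := {z | ∃ N : ℕ, N ≠ 0 ∧ N • z ∈ Rat E}
  zero_mem' := ⟨1, one_ne_zero, by rw [smul_zero]; exact zero_mem _⟩
  add_mem' := by
    rintro z z' ⟨N, hN, h⟩ ⟨N', hN', h'⟩
    refine ⟨N * N', mul_ne_zero hN hN', ?_⟩
    rw [smul_add]
    refine add_mem ?_ ?_
    · rw [mul_comm, mul_smul]
      exact nsmul_mem h N'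
    · rw [mul_smul]
      exact nsmul_mem h' N
  neg_mem' := by
    rintro z ⟨N, hN, h⟩
    refine ⟨N, hN, ?_⟩
    rw [smul_neg]
    exact neg_mem h

/-- the group of classes modulo torsion -/
abbrev CH : Type := (Pts E →₀ ℤ) ⧸ Sat E

/-- the class of a point -/
noncomputable def cls (x : Pts E) : CH E := QuotientAddGroup.mk (cy E x)

lemma mem_sat {z : Pts E →₀ ℤ} (h : z ∈ Rat E) : z ∈ Sat E :=
  ⟨1, one_ne_zero, by rw [one_smul]; exact h⟩

lemma torsion_free {a : CH E} {N : ℕ} (hN : N ≠ 0) (h : N • a = 0) : a = 0 := by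
  obtain ⟨z, rfl⟩ := QuotientAddGroup.mk_surjective a
  rw [← QuotientAddGroup.mk_nsmul, QuotientAddGroup.eq_zero_iff] at h
  rw [QuotientAddGroup.eq_zero_iff]
  obtain ⟨M, hM, h⟩ := h
  refine ⟨M * N, mul_ne_zero hM hN, ?_⟩
  rw [mul_smul]
  exact h

variable {E}

lemma cls_lin (x : Pts E) (i : Fin n) {P Q R : (E i).toAffine.Point} (h : P + Q + R = 0) :
    cls E (put E x i P) + cls E (put E x i Q) + cls E (put E x i R) = 3 • cls E (put E x i 0) := by
  rw [← sub_eq_zero]
  change (QuotientAddGroup.mk (cy E (put E x i P) + cy E (put E x i Q) + cy E (put E x i R) -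
    3 • cy E (put E x i 0)) : CH E) = 0
  rw [QuotientAddGroup.eq_zero_iff]
  apply mem_sat
  apply AddSubgroup.subset_closure
  exact Or.inl ⟨x, i, P, Q, R, h, rfl⟩

/-- the map `P ↦ [x; P] - [x; 0]`. -/
noncomputable def gi (x : Pts E) (i : Fin n) (P : (E i).toAffine.Point) : CH E :=
  cls E (put E x i P) - cls E (put E x i 0)

lemma gi_zero (x : Pts E) (i : Fin n) : gi x i 0 = 0 := sub_self _

lemma gi_sum (x : Pts E) (i : Fin n) {P Q R : (E i).toAffine.Point} (h : P + Q + R = 0) :
    gi x i P + gi x i Q + gi x i R = 0 := by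
  have h1 := cls_lin x i h
  unfold gi
  have h2 : cls E (put E x i P) - cls E (put E x i 0) + (cls E (put E x i Q) - cls E (put E x i 0)) +
      (cls E (put E x i R) - cls E (put E x i 0)) =
      (cls E (put E x i P) + cls E (put E x i Q) + cls E (put E x i R)) -
        3 • cls E (put E x i 0) := by module
  rw [h2, h1, sub_self]

lemma gi_neg (x : Pts E) (i : Fin n) (P : (E i).toAffine.Point) : gi x i (-P) = -gi x i P := by
  have h := gi_sum x i (P := P) (Q := -P) (R := 0) (by rw [add_neg_cancel, add_zero])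
  rw [gi_zero, add_zero] at h
  exact (neg_eq_of_add_eq_zero_right h).symm

lemma gi_add (x : Pts E) (i : Fin n) (P Q : (E i).toAffine.Point) :
    gi x i (P + Q) = gi x i P + gi x i Q := by
  have h := gi_sum x i (P := P) (Q := Q) (R := -(P + Q)) (add_neg_cancel _)
  rw [gi_neg] at h
  exact (eq_of_sub_eq_zero (by rw [sub_eq_add_neg]; exact h)).symm

/-- the map `P ↦ [x; P] - [x; 0]` as a homomorphism. -/
noncomputable def gh (x : Pts E) (i : Fin n) : (E i).toAffine.Point →+ CH E :=
  AddMonoidHom.mk' (gi x i) (gi_add x i)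

omit [DecidableEq F] in
lemma put_comm (x : Pts E) {i j : Fin n} (hij : i ≠ j) (P : (E i).toAffine.Point)
    (Q : (E j).toAffine.Point) : put E (put E x i P) j Q = put E (put E x j Q) i P :=
  Function.update_comm hij _ _ _

omit [DecidableEq F] in
lemma put_put (x : Pts E) (i : Fin n) (P Q : (E i).toAffine.Point) :
    put E (put E x i P) i Q = put E x i Q := Function.update_idem _ _ _

/-- the biadditive form -/
noncomputable def bf (x : Pts E) (i j : Fin n) (P : (E i).toAffine.Point)
    (Q : (E j).toAffine.Point) : CH E :=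
  cls E (put E (put E x i P) j Q) - cls E (put E (put E x i P) j 0) -
    cls E (put E (put E x i 0) j Q) + cls E (put E (put E x i 0) j 0)

lemma bf_left (x : Pts E) {i j : Fin n} (hij : i ≠ j) (P : (E i).toAffine.Point)
    (Q : (E j).toAffine.Point) : bf x i j P Q = gh (put E x j Q) i P - gh (put E x j 0) i P := by
  change _ = gi _ _ _ - gi _ _ _
  unfold bf gi
  rw [put_comm x hij, put_comm x hij, put_comm x hij, put_comm x hij]
  abel

lemma bf_right (x : Pts E) {i j : Fin n} (P : (E i).toAffine.Point)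
    (Q : (E j).toAffine.Point) : bf x i j P Q = gh (put E x i P) j Q - gh (put E x i 0) j Q := by
  change _ = gi _ _ _ - gi _ _ _
  unfold bf gi
  abel

/-- the form vanishes on the pairs over a rational curve through a point over `w = 0`. -/
lemma bf_eq_zero (x : Pts E) {i j : Fin n} (hij : i ≠ j) {P T : (E i).toAffine.Point}
    {Q T' : (E j).toAffine.Point} {p p' q d : F[X]} {t u : F}
    (hs : ∀ s, d.eval s ≠ 0 →
      OnSurface (E i) (E j) (p.eval s / d.eval s, p'.eval s / d.eval s, q.eval s / d.eval s))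
    (ht : d.eval t ≠ 0) (hu : d.eval u ≠ 0)
    (h1 : Over P Q (p.eval t / d.eval t) (p'.eval t / d.eval t) (q.eval t / d.eval t))
    (h2 : Over T T' (p.eval u / d.eval u) (p'.eval u / d.eval u) (q.eval u / d.eval u))
    (hT : T + T = 0) : bf x i j P Q = 0 := by
  have key : ∀ (P : (E i).toAffine.Point) (Q : (E j).toAffine.Point),
      2 • bf x i j P Q = cls E (put E (put E x i P) j Q) + cls E (put E (put E x i (-P)) j (-Q)) -
        2 • cls E (put E (put E x i 0) j 0) := by
    intro P Q
    have e1 : bf x i j (-P) (-Q) = bf x i j P Q := by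
      rw [bf_left x hij, map_neg, map_neg, ← neg_sub', ← bf_left x hij, bf_right, map_neg, map_neg,
        ← neg_sub', ← bf_right, neg_neg]
    have e2 : cls E (put E (put E x i P) j 0) + cls E (put E (put E x i (-P)) j 0) =
        2 • cls E (put E (put E x i 0) j 0) := by
      have h := gi_neg (put E x j 0) i P
      unfold gi at h
      rw [← put_comm x hij, ← put_comm x hij, ← put_comm x hij] at h
      rw [two_smul, ← sub_eq_zero]
      rw [← sub_eq_zero] at h
      rw [← h]
      abel
    have e3 : cls E (put E (put E x i 0) j Q) + cls E (put E (put E x i 0) j (-Q)) =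
        2 • cls E (put E (put E x i 0) j 0) := by
      have h := gi_neg (put E x i 0) j Q
      unfold gi at h
      rw [two_smul, ← sub_eq_zero]
      rw [← sub_eq_zero] at h
      rw [← h]
      abel
    have e4 : 2 • bf x i j P Q = bf x i j P Q + bf x i j (-P) (-Q) := by rw [e1, two_smul]
    rw [e4]
    unfold bf
    have e5 : cls E (put E (put E x i P) j Q) - cls E (put E (put E x i P) j 0) -
        cls E (put E (put E x i 0) j Q) + cls E (put E (put E x i 0) j 0) +
        (cls E (put E (put E x i (-P)) j (-Q)) - cls E (put E (put E x i (-P)) j 0) -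
        cls E (put E (put E x i 0) j (-Q)) + cls E (put E (put E x i 0) j 0)) =
        cls E (put E (put E x i P) j Q) + cls E (put E (put E x i (-P)) j (-Q)) -
        (cls E (put E (put E x i P) j 0) + cls E (put E (put E x i (-P)) j 0)) -
        (cls E (put E (put E x i 0) j Q) + cls E (put E (put E x i 0) j (-Q))) +
        2 • cls E (put E (put E x i 0) j 0) := by module
    rw [e5, e2, e3]
    module
  have h3 : cls E (put E (put E x i P) j Q) + cls E (put E (put E x i (-P)) j (-Q)) =
      cls E (put E (put E x i T) j T') + cls E (put E (put E x i (-T)) j (-T')) := by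
    rw [← sub_eq_zero, ← sub_sub]
    change (QuotientAddGroup.mk (cy E (put E (put E x i P) j Q) +
      cy E (put E (put E x i (-P)) j (-Q)) - cy E (put E (put E x i T) j T') -
      cy E (put E (put E x i (-T)) j (-T'))) : CH E) = 0
    rw [QuotientAddGroup.eq_zero_iff]
    apply mem_sat
    apply AddSubgroup.subset_closure
    exact Or.inr ⟨x, i, j, P, T, Q, T', p, p', q, d, t, u, hij, hs, ht, hu, h1, h2, rfl⟩
  have h4 : 2 • bf x i j T T' = 0 := by
    have ha : ∀ y : Pts E, gh y i T + gh y i T = 0 := by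
      intro y
      rw [← map_add, hT, map_zero]
    rw [bf_left x hij, two_smul, sub_add_sub_comm, ha, ha, sub_zero]
  apply torsion_free E two_ne_zero
  rw [key, h3, ← key, h4]

end quotient

section main

variable {F : Type} [Field F] [CharZero F] [IsAlgClosed F]

/-- the rational curve through the points of two chains. -/
lemma gen_conn {E E' : WeierstrassCurve F} {X X' : ℕ → F} (h : Gen E X) (h' : Gen E' X') :
    ∃ A A' : F, cubic E A = 0 ∧ cubic E' A' = 0 ∧ ∀ m n, Conn E E' A A' (X m) (X' n) := by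
  obtain ⟨a1, a2, a3, l, s, rfl, ha12, ha13, ha23, hl, hc, hI, hX, -⟩ := h
  obtain ⟨b1, b2, b3, l', s', rfl, hb12, hb13, hb23, hl', hc', hI', hX', -⟩ := h'
  refine ⟨-a1 + (a1 - a2) * 1, -b1 + (b1 - b2) * 1, ?_, ?_, fun m n => ?_⟩
  · rw [cubic_crv]
    ring
  · rw [cubic_crv]
    ring
  · have h1 := conn_base (μ := s m ^ 2) (μ' := s' n ^ 2) (t := 1 / 512) (hc'.h2 n)
      (sub_ne_zero.mp (leg_ne ((hI' n).1 0)).2.2)
    have h2 := conn_swap (conn_rho hc (m + 1) (hI m) h1)
    have h3 := conn_swap (conn_rho hc' (n + 1) (hI' n) h2)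
    obtain ⟨c, hcc⟩ := IsAlgClosed.exists_pow_nat_eq ((a1 - a2) ^ 3) (by norm_num : 0 < 2)
    obtain ⟨c', hcc'⟩ := IsAlgClosed.exists_pow_nat_eq ((b1 - b2) ^ 3) (by norm_num : 0 < 2)
    have h4 := conn_swap (conn_affine hcc (cubic_affine hl) h3)
    have h5 := conn_swap (conn_affine hcc' (cubic_affine hl') h4)
    rw [← hX, ← hX'] at h5
    exact h5

omit [CharZero F] [IsAlgClosed F] in
lemma eqn_cubic {E : WeierstrassCurve F} (h1 : E.a₁ = 0) (h3 : E.a₃ = 0) {x y : F}
    (h : E.toAffine.Equation x y) : y ^ 2 = cubic E x := by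
  rw [Affine.equation_iff] at h
  rw [h1, h3] at h
  unfold cubic
  linear_combination h

variable [DecidableEq F] [Algebra.IsAlgebraic ℚ F] {n : ℕ} {E : Fin n → WeierstrassCurve F}

omit [CharZero F] [IsAlgClosed F] [Algebra.IsAlgebraic ℚ F] [DecidableEq F] in
lemma over_some {E E' : WeierstrassCurve F} {x y x' y' a a' w : F}
    (h : E.toAffine.Nonsingular x y) (h' : E'.toAffine.Nonsingular x' y') :
    Over (Affine.Point.some x y h) (Affine.Point.some x' y' h') a a' w ↔
      x = a ∧ x' = a' ∧ y * y' = w := Iff.rfl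

omit [CharZero F] [IsAlgClosed F] [Algebra.IsAlgebraic ℚ F] in
/-- points of order two -/
lemma exists_two_torsion {E : WeierstrassCurve F} (hE : E.IsElliptic) (h1 : E.a₁ = 0)
    (h3 : E.a₃ = 0) {A : F} (hA : cubic E A = 0) :
    ∃ h : E.toAffine.Nonsingular A 0,
      (Affine.Point.some A 0 h : E.toAffine.Point) + Affine.Point.some A 0 h = 0 := by
  have h : E.toAffine.Nonsingular A 0 := by
    have := hE
    apply Affine.equation_iff_nonsingular.mp
    rw [Affine.equation_iff]
    unfold cubic at hA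
    linear_combination -hA
  refine ⟨h, ?_⟩
  apply Affine.Point.add_of_Y_eq rfl
  simp only [Affine.negY]
  rw [h1, h3]
  ring

omit [Algebra.IsAlgebraic ℚ F] in
lemma bf_gen (x : Pts E) {i j : Fin n} (hij : i ≠ j) (hE : ∀ i, (E i).IsElliptic)
    (h1 : ∀ i, (E i).a₁ = 0) (h3 : ∀ i, (E i).a₃ = 0) {X X' : ℕ → F} (hX : Gen (E i) X)
    (hX' : Gen (E j) X') {P : (E i).toAffine.Point} {Q : (E j).toAffine.Point}
    (hP : P ∈ ptsOf (E i) X) (hQ : Q ∈ ptsOf (E j) X') : bf x i j P Q = 0 := by
  obtain ⟨A, A', hA, hA', hconn⟩ := gen_conn hX hX'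
  obtain ⟨m, y, h, rfl⟩ := hP
  obtain ⟨l, y', h', rfl⟩ := hQ
  obtain ⟨p, p', q, d, z0, z1, hs, k0, k1, e1, e2, e3, e4, e5⟩ := hconn m l
  obtain ⟨g, hg⟩ := exists_two_torsion (hE i) (h1 i) (h3 i) hA
  obtain ⟨g', hg'⟩ := exists_two_torsion (hE j) (h1 j) (h3 j) hA'
  have hw : (y * y') ^ 2 = (q.eval z0 / d.eval z0) ^ 2 := by
    have h5 := hs z0 k0
    change _ ^ 2 = _ * _ at h5
    simp only at h5
    rw [h5, e1, e2, mul_pow, eqn_cubic (h1 i) (h3 i) h.1, eqn_cubic (h1 j) (h3 j) h'.1]
  rcases sq_eq_sq_iff_eq_or_eq_neg.mp hw with h5 | h5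
  · refine bf_eq_zero x hij hs k0 k1 (P := .some _ y h) (Q := .some _ y' h')
      (T := .some A 0 g) (T' := .some A' 0 g') ?_ ?_ hg
    · rw [over_some]
      exact ⟨e1.symm, e2.symm, h5⟩
    · rw [over_some]
      exact ⟨e3.symm, e4.symm, by rw [e5, zero_div, mul_zero]⟩
  · refine bf_eq_zero x hij (p := p) (p' := p') (q := -q) (fun s hs' => ?_) k0 k1 (P := .some _ y h)
      (Q := .some _ y' h') (T := .some A 0 g) (T' := .some A' 0 g') ?_ ?_ hg
    · have h6 := hs s hs'
      change _ ^ 2 = _ at h6
      change _ ^ 2 = _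
      rw [eval_neg, neg_div, neg_sq]
      exact h6
    · rw [over_some]
      exact ⟨e1.symm, e2.symm, by rw [eval_neg, neg_div, h5]⟩
    · rw [over_some]
      exact ⟨e3.symm, e4.symm, by rw [eval_neg, e5, neg_zero, zero_div, mul_zero]⟩

lemma bf_W (x : Pts E) {i j : Fin n} (hij : i ≠ j) (hE : ∀ i, (E i).IsElliptic)
    (h1 : ∀ i, (E i).a₁ = 0) (h3 : ∀ i, (E i).a₃ = 0)
    {P : (E i).toAffine.Point} {Q : (E j).toAffine.Point}
    (hP : P ∈ W (E i)) (hQ : Q ∈ W (E j)) : bf x i j P Q = 0 := by
  obtain ⟨X, hX, hW⟩ := W_spec (hE i) (h1 i) (h3 i)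
  obtain ⟨X', hX', hW'⟩ := W_spec (hE j) (h1 j) (h3 j)
  rw [hW] at hP
  rw [hW'] at hQ
  have e1 := fun P Q hP hQ => bf_gen (P := P) (Q := Q) x hij hE h1 h3 hX hX' hP hQ
  have e2 : ∀ Q ∈ ptsOf (E j) X', bf x i j P Q = 0 := by
    intro Q hQ'
    have : AddSubgroup.closure (ptsOf (E i) X) ≤
        (gh (put E x j Q) i - gh (put E x j 0) i : (E i).toAffine.Point →+ CH E).ker := by
      rw [AddSubgroup.closure_le]
      intro P hP'
      rw [SetLike.mem_coe, AddMonoidHom.mem_ker, AddMonoidHom.sub_apply, ← bf_left x hij]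
      exact e1 P Q hP' hQ'
    have h2 := this hP
    rw [AddMonoidHom.mem_ker, AddMonoidHom.sub_apply, ← bf_left x hij] at h2
    exact h2
  have e3 : AddSubgroup.closure (ptsOf (E j) X') ≤
      (gh (put E x i P) j - gh (put E x i 0) j : (E j).toAffine.Point →+ CH E).ker := by
    rw [AddSubgroup.closure_le]
    intro Q hQ'
    rw [SetLike.mem_coe, AddMonoidHom.mem_ker, AddMonoidHom.sub_apply, ← bf_right]
    exact e2 Q hQ'
  have h2 := e3 hQ
  rw [AddMonoidHom.mem_ker, AddMonoidHom.sub_apply, ← bf_right] at h2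
  exact h2

/-- the coordinates in `S` -/
noncomputable def res (x : Pts E) (S : Finset (Fin n)) : Pts E := fun i => if i ∈ S then x i else 0

omit [CharZero F] [IsAlgClosed F] [Algebra.IsAlgebraic ℚ F] [DecidableEq F] in
lemma res_insert (x : Pts E) {S : Finset (Fin n)} (i : Fin n) :
    res x (insert i S) = put E (res x S) i (x i) := by
  funext k
  by_cases hk : k = i
  · subst hk
    simp [res, put]
  · simp [res, put, hk, Function.update_of_ne]

omit [CharZero F] [IsAlgClosed F] [Algebra.IsAlgebraic ℚ F] [DecidableEq F] in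
lemma res_put (x : Pts E) {S : Finset (Fin n)} {i : Fin n} (hi : i ∉ S) :
    put E (res x S) i 0 = res x S := by
  funext k
  by_cases hk : k = i
  · subst hk
    simp [res, put, hi]
  · simp [put, hk, Function.update_of_ne]

lemma gi_res (hE : ∀ i, (E i).IsElliptic) (h1 : ∀ i, (E i).a₁ = 0) (h3 : ∀ i, (E i).a₃ = 0)
    (x : Pts E) (hx : ∀ i, x i ∈ W (E i)) (i : Fin n) (S : Finset (Fin n)) (hi : i ∉ S) :
    gi (res x S) i (x i) = gi (0 : Pts E) i (x i) := by
  induction S using Finset.induction_on with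
  | empty =>
    have : res x ∅ = 0 := by
      funext k
      simp [res]
    rw [this]
  | insert j S hj ih =>
    rw [Finset.mem_insert, not_or] at hi
    rw [← ih hi.2, res_insert]
    have h5 := bf_W (res x S) hi.1 hE h1 h3 (hx i) (hx j)
    rw [bf_left _ hi.1, res_put x hj] at h5
    exact sub_eq_zero.mp h5

lemma cls_res (hE : ∀ i, (E i).IsElliptic) (h1 : ∀ i, (E i).a₁ = 0) (h3 : ∀ i, (E i).a₃ = 0)
    (x : Pts E) (hx : ∀ i, x i ∈ W (E i)) (S : Finset (Fin n)) :
    cls E (res x S) = cls E 0 + ∑ i ∈ S, gi (0 : Pts E) i (x i) := by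
  induction S using Finset.induction_on with
  | empty =>
    have : res x ∅ = 0 := by
      funext k
      simp [res]
    rw [this, Finset.sum_empty, add_zero]
  | insert j S hj ih =>
    rw [Finset.sum_insert hj, add_left_comm, ← ih, ← gi_res hE h1 h3 x hx j S hj, res_insert]
    unfold gi
    rw [res_put x hj, sub_add_cancel]

lemma cls_eq (hE : ∀ i, (E i).IsElliptic) (h1 : ∀ i, (E i).a₁ = 0) (h3 : ∀ i, (E i).a₃ = 0)
    (x : Pts E) (hx : ∀ i, x i ∈ W (E i)) :
    cls E x = cls E 0 + ∑ i, gh (0 : Pts E) i (x i) := by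
  have h5 := cls_res hE h1 h3 x hx Finset.univ
  have h6 : res x Finset.univ = x := by
    funext k
    simp [res]
  rw [h6] at h5
  exact h5

end main

/-- **The Abel–Jacobi map is injective modulo torsion on the zero-cycles of products of elliptic
curves `E i` over `F` which are supported on the product of the subgroups `W (E i)` of infinite
rank.** -/
theorem result (F : Type) [Field F] [CharZero F] [IsAlgClosed F] [Algebra.IsAlgebraic ℚ F]
    [DecidableEq F] :
    ∃ W : (E : WeierstrassCurve F) → AddSubgroup E.toAffine.Point,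
      -- the groups have infinite rank
      (∀ E : WeierstrassCurve F, E.IsElliptic → E.a₁ = 0 → E.a₃ = 0 → ∀ m : ℕ,
        ∃ v : Fin m → E.toAffine.Point, (∀ i, v i ∈ W E) ∧ LinearIndependent ℤ v) ∧
      -- the Abel–Jacobi map
      ∀ (n : ℕ) (E : Fin n → WeierstrassCurve F),
        (∀ i, (E i).IsElliptic ∧ (E i).a₁ = 0 ∧ (E i).a₃ = 0) →
        ∀ z : Pts E →₀ ℤ, (∀ x ∈ z.support, ∀ i, x i ∈ W (E i)) →
          (z.sum fun _ m => m) = 0 → (∀ i, (z.sum fun x m => m • x i) = 0) →
          ∃ N : ℕ, N ≠ 0 ∧ N • z ∈ Rat E := by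
  refine ⟨W, fun E hE h1 h3 m => W_rank hE h1 h3 m, fun n E hE z hz hdeg hsum => ?_⟩
  have hE0 : ∀ i, (E i).IsElliptic := fun i => (hE i).1
  have h1 : ∀ i, (E i).a₁ = 0 := fun i => (hE i).2.1
  have h3 : ∀ i, (E i).a₃ = 0 := fun i => (hE i).2.2
  have key : (QuotientAddGroup.mk z : CH E) = 0 := by
    have e1 : (QuotientAddGroup.mk z : CH E) = ∑ x ∈ z.support, z x • cls E x := by
      have e2 : z = ∑ x ∈ z.support, z x • cy E x := by
        conv_lhs => rw [← Finsupp.sum_single z]
        apply Finset.sum_congr rfl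
        intro x _
        unfold cy
        rw [Finsupp.smul_single, smul_eq_mul, mul_one]
      conv_lhs => rw [e2]
      change QuotientAddGroup.mk' (Sat E) _ = _
      rw [map_sum]
      apply Finset.sum_congr rfl
      intro x _
      rw [map_zsmul]
      rfl
    rw [e1]
    have e3 : ∀ x ∈ z.support, z x • cls E x =
        z x • cls E 0 + ∑ i, gh (0 : Pts E) i (z x • x i) := by
      intro x hx
      rw [cls_eq hE0 h1 h3 x (hz x hx), zsmul_add, ← Finset.sum_zsmul]
      congr 1
      apply Finset.sum_congr rfl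
      intro i _
      rw [map_zsmul]
    have e4 : ∑ x ∈ z.support, z x • cls E 0 = 0 := by
      have e6 : ∑ x ∈ z.support, z x • cls E 0 = (∑ x ∈ z.support, z x) • cls E 0 :=
        (map_sum (zmultiplesHom (CH E) (cls E 0)) _ _).symm
      have e7 : ∑ x ∈ z.support, z x = 0 := hdeg
      rw [e6, e7, zero_zsmul]
    rw [Finset.sum_congr rfl e3, Finset.sum_add_distrib, e4, zero_add, Finset.sum_comm]
    apply Finset.sum_eq_zero
    intro i _
    rw [← map_sum]
    have e5 : ∑ x ∈ z.support, z x • x i = 0 := hsum i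
    rw [e5, map_zero]
  rw [QuotientAddGroup.eq_zero_iff] at key
  exact key

end Pool.Agent.Results.MP_537ea0_ag.ProductsOfEllipticCurves
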